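import Pool.Agent.H577.QR.Stm

/-!
# Project QR (helper577), task NT: different quartic symbols
(written by helper539)
-/

set_option autoImplicit false

namespace Pool.Agent.H539.QR577

open Pool.Agent.H577.QR
open Pool.Agent.Y153.QN3 (Sym U U_cases cop_iff)
open scoped NumberTheorySymbols

/-- An odd number which is not a square is a nonresidue modulo large primes `p = 1 (mod 4)`. -/
theorem exists_p (b : ℕ) (hb : b % 2 = 1) (hns : ¬ ∃ c : ℕ, b = c ^ 2) (N : ℕ) :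
    ∃ p : ℕ, N < p ∧ p.Prime ∧ p % 4 = 1 ∧ ¬ (p : ℤ) ∣ (b : ℤ) ^ ((p - 1) / 2) - 1 := by
  obtain ⟨s, a, hsa, hsq⟩ := Nat.sq_mul_squarefree b
  have hs1 : s ≠ 1 := by
    rintro rfl
    exact hns ⟨a, by rw [← hsa, mul_one]⟩
  obtain ⟨q, hq, s', hs'⟩ := Nat.exists_prime_and_dvd hs1
  have hb0 : b ≠ 0 := by omega
  have ha0 : a ≠ 0 := by
    rintro rfl
    apply hb0
    rw [← hsa]
    ring
  have hs0 : s ≠ 0 := by
    rintro rfl
    exact hb0 (by rw [← hsa, mul_zero])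
  have hs'0 : s' ≠ 0 := by
    rintro rfl
    exact hs0 (by rw [hs', mul_zero])
  haveI : Fact q.Prime := ⟨hq⟩
  have hqs' : Nat.Coprime q s' := by
    rw [hs'] at hsq
    exact (Nat.squarefree_mul_iff.1 hsq).1
  have hqb : q ∣ b := by
    rw [← hsa, hs']
    exact Dvd.intro_left _ (by ring : a ^ 2 * s' * q = a ^ 2 * (q * s'))
  have hq2 : q ≠ 2 := by
    rintro rfl
    omega
  have hq4 : Nat.Coprime q 4 := by
    rw [show (4 : ℕ) = 2 ^ 2 by norm_num]
    exact Nat.Coprime.pow_right 2 ((Nat.coprime_primes hq Nat.prime_two).2 hq2)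
  have hq4s : Nat.Coprime q (4 * s') := Nat.Coprime.mul_right hq4 hqs'
  obtain ⟨r, hr⟩ := FiniteField.exists_nonsquare (F := ZMod q) (by
    rw [ZMod.ringChar_zmod_n]
    exact hq2)
  obtain ⟨x, hx1, hx2⟩ := Nat.chineseRemainder hq4s r.val 1
  have hxr : ((x : ℕ) : ZMod q) = r := by
    have h1 := (ZMod.natCast_eq_natCast_iff x r.val q).2 hx1
    rw [h1, ZMod.natCast_zmod_val]
  have hxc : Nat.Coprime x (q * (4 * s')) := by
    refine Nat.Coprime.mul_right ?_ ?_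
    · rw [Nat.coprime_comm, Nat.Prime.coprime_iff_not_dvd hq]
      intro h1
      have h2 := (ZMod.natCast_eq_zero_iff x q).2 h1
      rw [hxr] at h2
      exact hr (by rw [h2]; exact IsSquare.zero)
    · have h1 := hx2.gcd_eq
      rw [Nat.gcd_one_left] at h1
      exact h1
  obtain ⟨p, hpN, hp, hpx⟩ := Nat.forall_exists_prime_gt_and_modEq (N + b)
    (Nat.mul_ne_zero hq.ne_zero (Nat.mul_ne_zero four_ne_zero hs'0)) hxc
  haveI : Fact p.Prime := ⟨hp⟩
  have hpq : ((p : ℕ) : ZMod q) = r := by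
    rw [← hxr]
    exact (ZMod.natCast_eq_natCast_iff _ _ _).2 (hpx.of_mul_right _)
  have hp4s : p ≡ 1 [MOD 4 * s'] := (hpx.of_mul_left _).trans hx2
  have hp4 : p % 4 = 1 := hp4s.of_mul_right _
  have hps : p ≡ 1 [MOD s'] := hp4s.of_mul_left _
  -- the Jacobi symbols
  have hJs : J((p : ℤ) | s') = 1 := by
    have h1 : J((p : ℤ) | s') = J((1 : ℤ) | s') := by
      apply jacobiSym.mod_left'
      exact_mod_cast hps
    rw [h1, jacobiSym.one_left]
  have hJq : J((p : ℤ) | q) = -1 := by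
    rw [← jacobiSym.legendreSym.to_jacobiSym, legendreSym.eq_neg_one_iff]
    rw [Int.cast_natCast, hpq]
    exact hr
  have hpa : (p : ℤ).gcd a = 1 := by
    rw [Int.gcd_natCast_natCast]
    refine (Nat.Prime.coprime_iff_not_dvd hp).2 fun h1 => ?_
    have h2 : a ∣ b := by
      rw [← hsa]
      exact Dvd.dvd.mul_right (dvd_pow_self a two_ne_zero) s
    have h3 := Nat.le_of_dvd (Nat.pos_of_ne_zero hb0) (h1.trans h2)
    omega
  have hJa : J((p : ℤ) | a ^ 2) = 1 := by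
    rw [jacobiSym.pow_right]
    exact jacobiSym.sq_one hpa
  have hJ : J((b : ℤ) | p) = -1 := by
    rw [← jacobiSym.quadratic_reciprocity_one_mod_four hp4 (Nat.odd_iff.2 hb), ← hsa,
      jacobiSym.mul_right' _ (pow_ne_zero 2 ha0) hs0, hJa, one_mul, hs',
      jacobiSym.mul_right' _ hq.ne_zero hs'0, hJs, hJq, mul_one]
  refine ⟨p, by omega, hp, hp4, fun hd => ?_⟩
  rw [← jacobiSym.legendreSym.to_jacobiSym] at hJ
  have h1 := legendreSym.eq_pow p b
  rw [hJ] at h1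
  have h2 : p / 2 = (p - 1) / 2 := by omega
  have h3 : (((b : ℤ) ^ ((p - 1) / 2) - 1 : ℤ) : ZMod p) = 0 :=
    (ZMod.intCast_zmod_eq_zero_iff_dvd _ _).2 hd
  rw [h2] at h1
  push_cast at h1 h3
  rw [← h1] at h3
  have h4 : ((2 : ℕ) : ZMod p) = 0 := by
    push_cast
    linear_combination -h3
  have h5 := (ZMod.natCast_eq_zero_iff 2 p).1 h4
  have h6 := (Nat.prime_dvd_prime_iff_eq hp Nat.prime_two).1 h5
  omega

/-- **(NT)** different symbols. -/
theorem nt : S_NT := by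
  intro n n' hn hn' hB m m' ε ε' hS hS'
  have hB2 : (n * n' ^ 3) % 2 = 1 := by
    rw [Nat.mul_mod, Nat.pow_mod, hn, hn']
  -- the prime
  obtain ⟨p, hpN, hp, hp4, hpB⟩ : ∃ p : ℕ, 2 * n * n' * m * m' < p ∧ p.Prime ∧ p % 4 = 1 ∧
      ¬ (p : ℤ) ∣ (((n * n' ^ 3 : ℕ) : ℤ)) ^ ((p - 1) / 4) - 1 := by
    by_cases hsq : ∃ b : ℕ, n * n' ^ 3 = b ^ 2
    · obtain ⟨b, hb⟩ := hsq
      have hbo : b % 2 = 1 := by
        rcases Nat.mod_two_eq_zero_or_one b with h | h
        · exfalso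
          rw [hb, Nat.pow_mod, h] at hB2
          norm_num at hB2
        · exact h
      have hbs : ¬ ∃ c : ℕ, b = c ^ 2 := by
        rintro ⟨c, rfl⟩
        exact hB ⟨c, by rw [hb, ← pow_mul]⟩
      obtain ⟨p, h1, h2, h3, h4⟩ := exists_p b hbo hbs (2 * n * n' * m * m')
      refine ⟨p, h1, h2, h3, fun h5 => h4 ?_⟩
      rw [hb] at h5
      push_cast at h5
      rw [← pow_mul, show 2 * ((p - 1) / 4) = (p - 1) / 2 by omega] at h5
      exact h5
    · obtain ⟨p, h1, h2, h3, h4⟩ := exists_p (n * n' ^ 3) hB2 hsq (2 * n * n' * m * m')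
      refine ⟨p, h1, h2, h3, fun h5 => h4 ?_⟩
      rw [show (p - 1) / 2 = (p - 1) / 4 * 2 by omega, pow_mul]
      have h6 : (((n * n' ^ 3 : ℕ) : ℤ) ^ ((p - 1) / 4)) ^ 2 - 1 =
          (((n * n' ^ 3 : ℕ) : ℤ) ^ ((p - 1) / 4) - 1) *
            (((n * n' ^ 3 : ℕ) : ℤ) ^ ((p - 1) / 4) + 1) := by ring
      rw [h6]
      exact Dvd.dvd.mul_right h5 _
  haveI : Fact p.Prime := ⟨hp⟩
  obtain ⟨a, b, hab⟩ := Nat.Prime.sq_add_sq (p := p) (by omega)
  have hnorm : (⟨(a : ℤ), (b : ℤ)⟩ : GaussianInt).norm = (p : ℤ) := by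
    rw [Zsqrtd.norm_def, ← hab]
    push_cast
    ring
  set α : GaussianInt := ⟨(a : ℤ), (b : ℤ)⟩ with hα
  have hm0 := hS.pos
  have hm'0 := hS'.pos
  have hn0 : 0 < n := by omega
  have hn'0 : 0 < n' := by omega
  have hpm : ¬ p ∣ m := by
    intro h
    have h1 := Nat.le_of_dvd hm0 h
    have h2 : m ≤ 2 * n * n' * m * m' := by
      calc m = 1 * m * 1 := by ring
        _ ≤ (2 * n * n') * m * m' := by
          refine Nat.mul_le_mul (Nat.mul_le_mul ?_ le_rfl) hm'0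
          exact Nat.mul_pos (by omega) hn'0
        _ = _ := by ring
    omega
  have hpm' : ¬ p ∣ m' := by
    intro h
    have h1 := Nat.le_of_dvd hm'0 h
    have h2 : m' ≤ 2 * n * n' * m * m' := by
      calc m' = 1 * m' := by ring
        _ ≤ (2 * n * n' * m) * m' := by
          refine Nat.mul_le_mul ?_ le_rfl
          exact Nat.mul_pos (Nat.mul_pos (by omega) hn'0) hm0
    omega
  have hpn : ¬ (p : ℤ) ∣ 2 * (n : ℤ) := by
    intro h
    have h0 : p ∣ 2 * n := by exact_mod_cast h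
    have h1 := Nat.le_of_dvd (by omega) h0
    have h2 : 2 * n ≤ 2 * n * n' * m * m' := by
      calc 2 * n = 2 * n * 1 * 1 * 1 := by ring
        _ ≤ 2 * n * n' * m * m' :=
          Nat.mul_le_mul (Nat.mul_le_mul (Nat.mul_le_mul le_rfl hn'0) hm0) hm'0
    omega
  have hpn' : ¬ (p : ℤ) ∣ 2 * (n' : ℤ) := by
    intro h
    have h0 : p ∣ 2 * n' := by exact_mod_cast h
    have h1 := Nat.le_of_dvd (by omega) h0
    have h2 : 2 * n' ≤ 2 * n * n' * m * m' := by
      calc 2 * n' = 2 * 1 * n' * 1 * 1 := by ring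
        _ ≤ 2 * n * n' * m * m' :=
          Nat.mul_le_mul (Nat.mul_le_mul (Nat.mul_le_mul (Nat.mul_le_mul le_rfl hn0) le_rfl)
            hm0) hm'0
    omega
  have hcop : ∀ k : ℕ, ¬ p ∣ k → IsCoprime α (k : GaussianInt) := by
    intro k hk
    rw [cop_iff, hnorm]
    exact Nat.isCoprime_iff_coprime.2 ((Nat.Prime.coprime_iff_not_dvd hp).2 hk)
  have he0 : ε α ≠ 0 := fun h => (hS.zero α).1 h (hcop m hpm)
  have he'0 : ε' α ≠ 0 := fun h => (hS'.zero α).1 h (hcop m' hpm')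
  refine ⟨α, mul_ne_zero he0 (star_ne_zero.2 he'0), fun h1 => hpB ?_⟩
  -- the two symbols agree
  have hss : star (ε' α) * ε' α = 1 := by
    rcases U_cases (hS'.U α) with h | h | h | h | h
    · exact absurd h he'0
    all_goals rw [h]; decide
  have hee : ε α = ε' α := by
    calc ε α = ε α * (star (ε' α) * ε' α) := by rw [hss, mul_one]
      _ = (ε α * star (ε' α)) * ε' α := by ring
      _ = ε' α := by rw [h1, one_mul]
  have h4 : ε α ^ 4 = 1 := (hS.U α).resolve_left he0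
  have hd1 := hS.split α p hp hpn hnorm
  have hd2 := hS'.split α p hp hpn' hnorm
  rw [← hee] at hd2
  set e := ε α with he
  set k := (p - 1) / 4 with hk
  have hd3 : α ∣ ((((n * n' ^ 3 : ℕ) : ℤ) ^ k - 1 : ℤ) : GaussianInt) := by
    have hd4 : α ∣ ((n' : ℤ) : GaussianInt) ^ k ^ 1 - e := by rw [pow_one]; exact hd2
    have hd5 : α ∣ (((n' : ℤ) : GaussianInt) ^ k) ^ 3 - e ^ 3 := hd2.trans (sub_dvd_pow_sub_pow _ _ 3)
    have h5 : ((((n * n' ^ 3 : ℕ) : ℤ) ^ k - 1 : ℤ) : GaussianInt) =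
        (((n : ℤ) : GaussianInt) ^ k - e) * (((n' : ℤ) : GaussianInt) ^ k) ^ 3 +
          e * ((((n' : ℤ) : GaussianInt) ^ k) ^ 3 - e ^ 3) := by
      push_cast
      rw [mul_pow]
      linear_combination h4
    rw [h5]
    exact dvd_add (Dvd.dvd.mul_right hd1 _) (Dvd.dvd.mul_left hd5 _)
  obtain ⟨c, hc⟩ := hd3
  have h6 := congrArg Zsqrtd.norm hc
  rw [Zsqrtd.norm_mul, hnorm, Zsqrtd.norm_intCast] at h6
  have h7 : (p : ℤ) ∣ (((n * n' ^ 3 : ℕ) : ℤ) ^ k - 1) * (((n * n' ^ 3 : ℕ) : ℤ) ^ k - 1) :=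
    ⟨_, h6⟩
  rcases (Nat.prime_iff_prime_int.1 hp).dvd_or_dvd h7 with h8 | h8 <;> exact h8

end Pool.Agent.H539.QR577
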